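import Mathlib

/-!
# CN matrices of pure braid projections: the characterization fails for every `n ≥ 9`

The counterexample is the matrix with entry `2` at the incomparable pairs and `0` at the comparable
pairs of a naturally labelled partial order on `{0,...,8}` (extended by zero for larger `n`).
-/

set_option autoImplicit false

namespace Pool.Agent.Results.MP_550572_gt.NineStrands

open Set

/-- A pure `n`-braid projection: `s i t` is the horizontal position of the strand `s_i` at height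
`t ∈ [0,1]` (`t = 0` is the upper bar, `t = 1` the lower bar). The strands are continuous, they are
indexed from left to right by their starting positions, the strand `i` ends at the `i`-th position,
and they meet only in finitely many transverse double points. -/
structure PureBraidProjection (n : ℕ) where
  s : Fin n → ℝ → ℝ
  cont : ∀ i, ContinuousOn (s i) (Icc 0 1)
  top_lt : ∀ i j, i < j → s i 0 < s j 0
  bottom_lt : ∀ i j, i < j → s i 1 < s j 1
  finite_crossings : ∀ i j, i ≠ j → {t | t ∈ Icc (0 : ℝ) 1 ∧ s i t = s j t}.Finite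
  transverse : ∀ i j, i ≠ j → ∀ t ∈ Icc (0 : ℝ) 1, s i t = s j t → ∀ ε > 0,
    ∃ t₁ t₂, t - ε < t₁ ∧ t₁ < t ∧ t < t₂ ∧ t₂ < t + ε ∧ t₁ ∈ Icc (0 : ℝ) 1 ∧ t₂ ∈ Icc (0 : ℝ) 1 ∧
      (s i t₁ - s j t₁) * (s i t₂ - s j t₂) < 0
  double : ∀ i j k, i ≠ j → j ≠ k → i ≠ k → ∀ t ∈ Icc (0 : ℝ) 1,
    ¬ (s i t = s j t ∧ s j t = s k t)

/-- The CN matrix: the `(i,j)` entry is the number of crossings of the strands `i` and `j`. -/
noncomputable def cnMatrix {n : ℕ} (B : PureBraidProjection n) : Matrix (Fin n) (Fin n) ℕ :=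
  fun i j => if i = j then 0 else {t | t ∈ Icc (0 : ℝ) 1 ∧ B.s i t = B.s j t}.ncard

/-- T0 matrices (with zero diagonal). -/
def IsT0 {n : ℕ} (M : Matrix (Fin n) (Fin n) ℕ) : Prop :=
  (∀ i, M i i = 0) ∧ ∀ i j k, i < j → j < k → M i j = 0 → M j k = 0 → M i k = 0

/-- The incomparable pairs. -/
def inc : List (ℕ × ℕ) :=
  [(0, 1), (0, 3), (0, 4), (0, 7), (1, 3), (1, 5), (1, 6), (2, 3), (2, 4), (2, 5), (2, 6), (2, 7),
    (3, 5), (3, 7), (3, 8), (4, 5), (4, 6), (4, 7), (4, 8), (5, 7), (6, 7), (6, 8)]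

/-- The matrix. -/
def bad (n : ℕ) : Matrix (Fin n) (Fin n) ℕ :=
  fun i j => if ((i : ℕ), (j : ℕ)) ∈ inc ∨ ((j : ℕ), (i : ℕ)) ∈ inc then 2 else 0

theorem inc_lt : ∀ p ∈ inc, p.1 < p.2 ∧ p.2 < 9 := by decide

theorem bad_even (n : ℕ) (i j : Fin n) : Even (bad n i j) := by
  unfold bad
  split_ifs
  · exact even_two
  · exact Even.zero

theorem bad_symm (n : ℕ) : (bad n).IsSymm := by
  ext i j
  simp only [Matrix.transpose_apply, bad]
  congr 1
  rw [or_comm]

theorem inc_trans : ∀ i j k : Fin 9, i < j → j < k → ((i : ℕ), (j : ℕ)) ∉ inc →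
    ((j : ℕ), (k : ℕ)) ∉ inc → ((i : ℕ), (k : ℕ)) ∉ inc := by decide

theorem bad_T0 (n : ℕ) : IsT0 (bad n) := by
  refine ⟨fun i => ?_, fun i j k hij hjk h1 h2 => ?_⟩
  · unfold bad
    rw [if_neg]
    rintro (h | h) <;> exact absurd (inc_lt _ h).1 (lt_irrefl _)
  · have hij' : (i : ℕ) < j := hij
    have hjk' : (j : ℕ) < k := hjk
    unfold bad at *
    rw [if_neg]
    rintro (h | h)
    · have hk := (inc_lt _ h).2
      simp only at hk
      refine inc_trans ⟨i, by omega⟩ ⟨j, by omega⟩ ⟨k, hk⟩ hij' hjk' ?_ ?_ h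
      · intro h3
        rw [if_pos (Or.inl h3)] at h1
        exact two_ne_zero h1
      · intro h3
        rw [if_pos (Or.inl h3)] at h2
        exact two_ne_zero h2
    · have := (inc_lt _ h).1
      simp only at this
      omega

section curves

variable {n : ℕ} (B : PureBraidProjection n)

/-- Strands which never cross keep their order. -/
theorem lt_of_zero {i j : Fin n} (hij : i < j) (h : cnMatrix B i j = 0) {t : ℝ}
    (ht : t ∈ Icc (0 : ℝ) 1) : B.s i t < B.s j t := by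
  unfold cnMatrix at h
  rw [if_neg hij.ne, ncard_eq_zero (B.finite_crossings i j hij.ne)] at h
  by_contra hcon
  have hc : ContinuousOn (fun t => B.s i t - B.s j t) (Icc 0 t) :=
    ((B.cont i).sub (B.cont j)).mono (Icc_subset_Icc le_rfl ht.2)
  have h0 := B.top_lt i j hij
  obtain ⟨u, hu, hu0⟩ := intermediate_value_Icc ht.1 hc
    (show (0 : ℝ) ∈ Icc (B.s i 0 - B.s j 0) (B.s i t - B.s j t) from
      ⟨by linarith, by linarith [not_lt.1 hcon]⟩)
  have : u ∈ {t | t ∈ Icc (0 : ℝ) 1 ∧ B.s i t = B.s j t} :=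
    ⟨⟨hu.1, hu.2.trans ht.2⟩, by simp only at hu0; linarith⟩
  rw [h] at this
  exact this

/-- Strands which cross are in reversed order at some time. -/
theorem exists_rev {i j : Fin n} (hij : i < j) (h : cnMatrix B i j ≠ 0) :
    ∃ t ∈ Icc (0 : ℝ) 1, B.s j t < B.s i t := by
  unfold cnMatrix at h
  rw [if_neg hij.ne, Ne, ncard_eq_zero (B.finite_crossings i j hij.ne), ← Ne,
    ← nonempty_iff_ne_empty] at h
  obtain ⟨t, ht, he⟩ := h
  obtain ⟨t₁, t₂, -, -, -, -, h1, h2, h3⟩ := B.transverse i j hij.ne t ht he 1 one_pos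
  rcases lt_or_ge 0 (B.s i t₁ - B.s j t₁) with h4 | h4
  · exact ⟨t₁, h1, by linarith⟩
  · refine ⟨t₂, h2, ?_⟩
    by_contra h5
    have := mul_nonneg_of_nonpos_of_nonpos h4 (by linarith [not_lt.1 h5] :
      B.s i t₂ - B.s j t₂ ≤ 0)
    linarith

/-- If two strands cross exactly twice then the times of reversed order form an interval. -/
theorem interval {i j : Fin n} (hij : i < j) (h : cnMatrix B i j = 2) {t₁ t₂ t₃ : ℝ}
    (h1 : t₁ ∈ Icc (0 : ℝ) 1) (h3 : t₃ ∈ Icc (0 : ℝ) 1) (h12 : t₁ < t₂) (h23 : t₂ < t₃)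
    (r1 : B.s j t₁ < B.s i t₁) (r3 : B.s j t₃ < B.s i t₃) (r2 : B.s i t₂ < B.s j t₂) : False := by
  unfold cnMatrix at h
  rw [if_neg hij.ne] at h
  have h0 := B.top_lt i j hij
  have h4 := B.bottom_lt i j hij
  have hcc := (B.cont i).sub (B.cont j)
  have ivt : ∀ {a b : ℝ}, 0 ≤ a → a < b → b ≤ 1 →
      (B.s i a - B.s j a < 0 ∧ 0 < B.s i b - B.s j b) ∨
      (0 < B.s i a - B.s j a ∧ B.s i b - B.s j b < 0) →
      ∃ u, a < u ∧ u < b ∧ u ∈ {t | t ∈ Icc (0 : ℝ) 1 ∧ B.s i t = B.s j t} := by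
    intro a b ha hab hb hs
    have hc : ContinuousOn (fun t => B.s i t - B.s j t) (Icc a b) :=
      hcc.mono (Icc_subset_Icc ha hb)
    have hex : ∃ u ∈ Icc a b, B.s i u - B.s j u = 0 := by
      rcases hs with hs | hs
      · exact intermediate_value_Icc hab.le hc ⟨hs.1.le, hs.2.le⟩
      · exact intermediate_value_Icc' hab.le hc ⟨hs.2.le, hs.1.le⟩
    obtain ⟨u, hu, hu0⟩ := hex
    refine ⟨u, ?_, ?_, ⟨ha.trans hu.1, hu.2.trans hb⟩, by linarith⟩
    · refine lt_of_le_of_ne hu.1 ?_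
      rintro rfl
      rcases hs with hs | hs <;> linarith
    · refine lt_of_le_of_ne hu.2 ?_
      rintro rfl
      rcases hs with hs | hs <;> linarith
  have ht10 : 0 < t₁ := by
    refine lt_of_le_of_ne h1.1 ?_
    rintro rfl
    linarith
  obtain ⟨u1, a1, b1, m1⟩ := ivt le_rfl ht10 h1.2 (Or.inl ⟨by linarith, by linarith⟩)
  obtain ⟨u2, a2, b2, m2⟩ := ivt h1.1 h12 (h23.le.trans h3.2) (Or.inr ⟨by linarith, by linarith⟩)
  obtain ⟨u3, a3, b3, m3⟩ := ivt (h1.1.trans h12.le) h23 h3.2 (Or.inl ⟨by linarith, by linarith⟩)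
  have hsub : ({u1, u2, u3} : Set ℝ) ⊆ {t | t ∈ Icc (0 : ℝ) 1 ∧ B.s i t = B.s j t} := by
    rintro x (rfl | rfl | rfl)
    · exact m1
    · exact m2
    · exact m3
  have hcard : ({u1, u2, u3} : Set ℝ).ncard = 3 := by
    rw [ncard_eq_three]
    exact ⟨u1, u2, u3, by intro h; linarith, by intro h; linarith, by intro h; linarith, rfl⟩
  have := ncard_le_ncard hsub (B.finite_crossings i j hij.ne)
  rw [hcard, h] at this
  omega

end curves

/-- **Main theorem.** For every `n ≥ 9` there is a symmetric, even, T0 matrix with non-negative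
integer entries which is not the CN matrix of any pure `n`-braid projection. -/
theorem result : ∀ n : ℕ, 9 ≤ n → ∃ M : Matrix (Fin n) (Fin n) ℕ,
    M.IsSymm ∧ (∀ i j, Even (M i j)) ∧ IsT0 M ∧ ∀ B : PureBraidProjection n, cnMatrix B ≠ M := by
  intro n hn
  refine ⟨bad n, bad_symm n, bad_even n, bad_T0 n, ?_⟩
  intro B hB
  have E : ∀ i j : Fin n, cnMatrix B i j = bad n i j := fun i j => by rw [hB]
  have e0 : (0 : ℕ) < n := by omega
  have e1 : (1 : ℕ) < n := by omega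
  have e2 : (2 : ℕ) < n := by omega
  have e3 : (3 : ℕ) < n := by omega
  have e4 : (4 : ℕ) < n := by omega
  have e5 : (5 : ℕ) < n := by omega
  have e6 : (6 : ℕ) < n := by omega
  have e7 : (7 : ℕ) < n := by omega
  have e8 : (8 : ℕ) < n := by omega
  -- comparable pairs never cross
  have comp : ∀ {a b : ℕ} (ha : a < n) (hb : b < n), a < b → (a, b) ∉ inc → (b, a) ∉ inc →
      ∀ {t : ℝ}, t ∈ Icc (0 : ℝ) 1 → B.s ⟨a, ha⟩ t < B.s ⟨b, hb⟩ t := by
    intro a b ha hb hab h1 h2 t ht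
    refine lt_of_zero B hab ?_ ht
    rw [E]
    unfold bad
    rw [if_neg]
    rintro (h | h)
    · exact h1 h
    · exact h2 h
  have two : ∀ {a b : ℕ} (ha : a < n) (hb : b < n), (a, b) ∈ inc →
      cnMatrix B ⟨a, ha⟩ ⟨b, hb⟩ = 2 := by
    intro a b ha hb hab
    rw [E]
    unfold bad
    rw [if_pos (Or.inl hab)]
  have rev : ∀ {a b : ℕ} (ha : a < n) (hb : b < n), a < b → (a, b) ∈ inc →
      ∃ t ∈ Icc (0 : ℝ) 1, B.s ⟨b, hb⟩ t < B.s ⟨a, ha⟩ t := by
    intro a b ha hb hab h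
    refine exists_rev B hab ?_
    rw [two ha hb h]
    exact two_ne_zero
  have c02 := @comp 0 2 e0 e2 (by norm_num) (by decide) (by decide)
  have c05 := @comp 0 5 e0 e5 (by norm_num) (by decide) (by decide)
  have c06 := @comp 0 6 e0 e6 (by norm_num) (by decide) (by decide)
  have c12 := @comp 1 2 e1 e2 (by norm_num) (by decide) (by decide)
  have c14 := @comp 1 4 e1 e4 (by norm_num) (by decide) (by decide)
  have c17 := @comp 1 7 e1 e7 (by norm_num) (by decide) (by decide)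
  have c28 := @comp 2 8 e2 e8 (by norm_num) (by decide) (by decide)
  have c34 := @comp 3 4 e3 e4 (by norm_num) (by decide) (by decide)
  have c36 := @comp 3 6 e3 e6 (by norm_num) (by decide) (by decide)
  have c56 := @comp 5 6 e5 e6 (by norm_num) (by decide) (by decide)
  have c58 := @comp 5 8 e5 e8 (by norm_num) (by decide) (by decide)
  have c78 := @comp 7 8 e7 e8 (by norm_num) (by decide) (by decide)
  obtain ⟨p, hp, hp'⟩ := rev e0 e7 (by norm_num) (by decide)
  obtain ⟨q, hq, hq'⟩ := rev e0 e4 (by norm_num) (by decide)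
  obtain ⟨r, hr, hr'⟩ := rev e1 e6 (by norm_num) (by decide)
  obtain ⟨s, hs, hs'⟩ := rev e3 e8 (by norm_num) (by decide)
  -- strands 4 and 5
  have q45 : B.s ⟨4, e4⟩ q < B.s ⟨5, e5⟩ q := by linarith [c05 hq]
  have r45 : B.s ⟨5, e5⟩ r < B.s ⟨4, e4⟩ r := by linarith [c14 hr, c56 hr]
  have s45 : B.s ⟨5, e5⟩ s < B.s ⟨4, e4⟩ s := by linarith [c34 hs, c58 hs]
  -- strands 2 and 3
  have q23 : B.s ⟨3, e3⟩ q < B.s ⟨2, e2⟩ q := by linarith [c02 hq, c34 hq]
  have r23 : B.s ⟨3, e3⟩ r < B.s ⟨2, e2⟩ r := by linarith [c12 hr, c36 hr]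
  have s23 : B.s ⟨2, e2⟩ s < B.s ⟨3, e3⟩ s := by linarith [c28 hs]
  -- strands 6 and 7
  have p67 : B.s ⟨7, e7⟩ p < B.s ⟨6, e6⟩ p := by linarith [c06 hp]
  have s67 : B.s ⟨7, e7⟩ s < B.s ⟨6, e6⟩ s := by linarith [c78 hs, c36 hs]
  have r67 : B.s ⟨6, e6⟩ r < B.s ⟨7, e7⟩ r := by linarith [c17 hr]
  -- strands 0 and 1
  have p01 : B.s ⟨1, e1⟩ p < B.s ⟨0, e0⟩ p := by linarith [c17 hp]
  have q01 : B.s ⟨1, e1⟩ q < B.s ⟨0, e0⟩ q := by linarith [c14 hq]
  have r01 : B.s ⟨0, e0⟩ r < B.s ⟨1, e1⟩ r := by linarith [c06 hr]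
  have i01 := two e0 e1 (by decide)
  have i23 := two e2 e3 (by decide)
  have i45 := two e4 e5 (by decide)
  have i67 := two e6 e7 (by decide)
  have l01 : (⟨0, e0⟩ : Fin n) < ⟨1, e1⟩ := by simp
  have l23 : (⟨2, e2⟩ : Fin n) < ⟨3, e3⟩ := by simp
  have l45 : (⟨4, e4⟩ : Fin n) < ⟨5, e5⟩ := by simp
  have l67 : (⟨6, e6⟩ : Fin n) < ⟨7, e7⟩ := by simp
  -- `q` is not between `r` and `s`
  have A1 : ¬ (r < q ∧ q < s) := fun h => interval B l45 i45 hr hs h.1 h.2 r45 s45 q45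
  have A2 : ¬ (s < q ∧ q < r) := fun h => interval B l45 i45 hs hr h.1 h.2 s45 r45 q45
  -- `s` is not between `q` and `r`
  have A3 : ¬ (q < s ∧ s < r) := fun h => interval B l23 i23 hq hr h.1 h.2 q23 r23 s23
  have A4 : ¬ (r < s ∧ s < q) := fun h => interval B l23 i23 hr hq h.1 h.2 r23 q23 s23
  -- `r` is not between `p` and `s`
  have A5 : ¬ (p < r ∧ r < s) := fun h => interval B l67 i67 hp hs h.1 h.2 p67 s67 r67
  have A6 : ¬ (s < r ∧ r < p) := fun h => interval B l67 i67 hs hp h.1 h.2 s67 p67 r67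
  -- `r` is not between `p` and `q`
  have A7 : ¬ (p < r ∧ r < q) := fun h => interval B l01 i01 hp hq h.1 h.2 p01 q01 r01
  have A8 : ¬ (q < r ∧ r < p) := fun h => interval B l01 i01 hq hp h.1 h.2 q01 p01 r01
  have n1 : q ≠ r := by rintro rfl; linarith
  have n2 : q ≠ s := by rintro rfl; linarith
  have n3 : r ≠ s := by rintro rfl; linarith
  have n4 : p ≠ r := by rintro rfl; linarith
  rcases lt_or_gt_of_ne n1 with h1 | h1 <;> rcases lt_or_gt_of_ne n2 with h2 | h2 <;>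
    rcases lt_or_gt_of_ne n3 with h3 | h3 <;> rcases lt_or_gt_of_ne n4 with h4 | h4 <;>
    first
      | exact A1 ⟨h1, h2⟩
      | exact A2 ⟨h2, h1⟩
      | exact A3 ⟨h2, h3⟩
      | exact A4 ⟨h3, h2⟩
      | exact A5 ⟨h4, h3⟩
      | exact A6 ⟨h3, h4⟩
      | exact A7 ⟨h4, h1⟩
      | exact A8 ⟨h1, h4⟩

end Pool.Agent.Results.MP_550572_gt.NineStrands
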